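import Pool.Agent.Helper99.LZ.Goals

/-!
helper97: packet MT-STEP of helper99 (project C2): the class HH is stable under multiplication by
`1 + ε x^σ`, and the radical part.
-/

set_option autoImplicit false

open Finset

namespace Pool.Agent.Helper97.LZ

open Pool.Agent.Helper99.LZ

section pr
variable {T : Pr} {a b : ℤ}

theorem P_mono (h : T.Reg a b) : Monotone T.P := by
  apply monotone_int_of_le_succ
  intro k
  have := h.L0 (k + 1)
  unfold Pr.L at this
  simp only [add_sub_cancel_right] at this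
  linarith

theorem F_zero (h : T.Reg a b) {k : ℤ} (hk : k < a ∨ b ≤ k) : T.F k = 0 := by
  unfold Pr.F Pr.H
  rcases hk with hk | hk
  · rw [(h.lo k hk).1, (h.lo k hk).2]; ring
  · rw [(h.hi k hk).1, (h.hi k hk).2]; ring

theorem F_nn (h : T.Reg a b) (k : ℤ) : 0 ≤ T.F k := by
  by_cases h1 : a ≤ k ∧ k < b
  · exact (h.Fpos k h1.1 h1.2).le
  · rw [F_zero h (by omega)]

theorem H_ge (h : T.Reg a b) {p q : ℤ} (hpq : q ≤ p) : T.F q ≤ T.H p q := by
  have := P_mono h hpq
  unfold Pr.F Pr.H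
  linarith

theorem H_nn (h : T.Reg a b) {p q : ℤ} (hpq : q ≤ p) : 0 ≤ T.H p q :=
  (F_nn h q).trans (H_ge h hpq)

theorem P_nn (h : T.Reg a b) (k : ℤ) : 0 ≤ T.P k := by
  have h1 := P_mono h (min_le_left k (a - 1))
  rw [(h.lo (min k (a - 1)) (by omega)).1] at h1
  exact h1

theorem F_alt (h : T.Reg a b) {k : ℤ} (hk : T.F k = 0) : k < a ∨ b ≤ k := by
  by_contra hc
  have := h.Fpos k (by omega) (by omega)
  linarith

/-- one of the ends is zero -/
theorem ends (h : T.Reg a b) {p q : ℤ} (hpq : q - 1 ≤ p) (h1 : T.H (p + 1) (q - 1) = 0) :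
    T.H (p + 2) q = 0 ∨ T.H (p - 1) (q - 3) = 0 := by
  have h2 : T.F (q - 1) = 0 := by
    have := H_ge h (show q - 1 ≤ p + 1 by omega)
    have := F_nn h (q - 1)
    linarith
  rcases F_alt h h2 with h3 | h3
  · right
    have h4 : T.Q (q - 1) = 0 := (h.lo _ h3).2
    have h5 : T.Q (q - 3) = 0 := (h.lo _ (by omega)).2
    have h6 : T.P (p - 1) ≤ T.P (p + 1) := P_mono h (by omega)
    have h7 := P_nn h (p - 1)
    unfold Pr.H at h1 ⊢
    linarith
  · left
    have h4 := (h.hi q (by omega)).2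
    have h5 := (h.hi (p + 2) (by omega)).1
    unfold Pr.H
    linarith

/-- one of the ends is zero, level `-2` -/
theorem ends2 (h : T.Reg a b) {q : ℤ} (h1 : T.F (q - 1) = 0) :
    T.F q = 0 ∨ T.F (q - 3) = 0 := by
  rcases F_alt h h1 with h3 | h3
  · exact Or.inr (F_zero h (by omega))
  · exact Or.inl (F_zero h (by omega))

end pr

section ctx
variable {V : Type} [AddCommGroup V] [Module ℝ V] {S : Ctx V} {a b : ℤ}

theorem DXX (h : S.Rel) (p q : ℤ) : S.D p q S.X S.X = S.pr.H (p + 2) q := by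
  rw [h.DX, h.PX]
  unfold Ctx.pr Pr.H
  simp only [add_assoc]; norm_num

theorem DXY (h : S.Rel) (p q : ℤ) : S.D p q S.X S.Y = S.pr.H (p + 1) (q - 1) := by
  rw [h.DX, h.QY]
  rfl

theorem DYY (h : S.Rel) (p q : ℤ) : S.D p q S.Y S.Y = S.pr.H p (q - 2) := by
  rw [h.DY, h.QY]
  unfold Ctx.pr Pr.H
  rw [show q - 1 - 1 = q - 2 by ring]

theorem full_apply (p q : ℤ) (u v : V × ℝ) : S.full p q u v =
    S.D p q u.1 v.1 + u.2 * (S.P p v.1 - S.Q q v.1)
      + v.2 * (S.P p u.1 - S.Q q u.1) + u.2 * v.2 * S.g p q := rfl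

theorem fXX (h : S.Rel) (p q : ℤ) : S.full p q (S.X, 0) (S.X, 0) = S.pr.H (p + 2) q := by
  rw [full_apply]; simp [DXX h]

theorem fXY (h : S.Rel) (p q : ℤ) : S.full p q (S.X, 0) (S.Y, 0) = S.pr.H (p + 1) (q - 1) := by
  rw [full_apply]; simp [DXY h]

theorem fYY (h : S.Rel) (p q : ℤ) : S.full p q (S.Y, 0) (S.Y, 0) = S.pr.H p (q - 2) := by
  rw [full_apply]; simp [DYY h]

theorem adj2 (h : S.Rel) (q : ℤ) (v : V) : S.D (q - 2) q S.Y v = S.D (q - 3) (q - 1) S.X v := by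
  rw [h.DY, h.DX, show q - 3 + 1 = q - 2 by ring]

theorem adj (h : S.Rel) (p q : ℤ) (v : V × ℝ) :
    S.full p q (S.Y, 0) v = S.full (p - 1) (q - 1) (S.X, 0) v := by
  rw [full_apply, full_apply]
  simp only [h.DY, h.DX, h.PX, h.QY, sub_add_cancel, zero_mul]

theorem fsym (h : S.Rel) (p q : ℤ) : Sym (S.full p q) := by
  intro u v
  rw [full_apply, full_apply, h.sym p q u.1 v.1]
  ring

/-- level `-2`, adjacent forms -/
theorem fam2 (hop : StmtOP) (h : S.HH a b) (q : ℤ) {α β : ℝ} (hα : 0 < α) (hβ : 0 < β) :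
    OnePos (α • S.D (q - 2) q + β • S.D (q - 3) (q - 1)) ∧
    ∀ u, (∀ z, (α • S.D (q - 2) q + β • S.D (q - 3) (q - 1)) u z = 0) →
      (∀ z, S.D (q - 2) q u z = 0) ∧ (∀ z, S.D (q - 3) (q - 1) u z = 0) := by
  have hr := h.toRel
  have e1 : S.D (q - 2) q S.X S.X = S.pr.F q := by
    rw [DXX hr, show q - 2 + 2 = q by ring]; rfl
  have e2 : S.D (q - 2) q S.X S.Y = S.pr.F (q - 1) := by
    rw [DXY hr, show q - 2 + 1 = q - 1 by ring]; rfl
  have e3 : S.D (q - 2) q S.Y S.Y = S.pr.F (q - 2) := by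
    rw [DYY hr]; rfl
  have e4 : S.D (q - 3) (q - 1) S.Y S.Y = S.pr.F (q - 3) := by
    rw [DYY hr, show q - 1 - 2 = q - 3 by ring]; rfl
  have e5 : S.D (q - 3) (q - 1) S.X S.X = S.pr.F (q - 1) := by
    rw [DXX hr, show q - 3 + 2 = q - 1 by ring]; rfl
  have e6 : S.D (q - 3) (q - 1) S.X S.Y = S.pr.F (q - 2) := by
    rw [DXY hr, show q - 3 + 1 = q - 2 by ring, show q - 1 - 1 = q - 2 by ring]; rfl
  have h3 : S.D (q - 3) (q - 1) = S.D (q - 1 - 2) (q - 1) := by
    rw [show q - 1 - 2 = q - 3 by ring]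
  refine hop.2.2.2.2 V (S.D (q - 2) q) (S.D (q - 3) (q - 1)) S.X S.Y α β (hr.sym _ _) (hr.sym _ _)
    (h.lev2 q) (by rw [h3]; exact h.lev2 (q - 1)) (adj2 hr q) ?_ ?_ ?_ ?_ ?_ ?_ ?_ hα hβ
  · rw [e1]; exact F_nn h.reg _
  · rw [e2]; exact F_nn h.reg _
  · rw [e3]; exact F_nn h.reg _
  · rw [e4]; exact F_nn h.reg _
  · rw [e1, e2, e4]; intro h1 _; exact ends2 h.reg h1
  · rw [e1, e2, e3]; intro h1 h2 h3; exact h.zer2 q h1 h2 h3
  · rw [e4, e5, e6]
    intro h1 h2 h4
    rw [h3]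
    exact h.zer2 (q - 1) h1 (by rw [show q - 1 - 1 = q - 2 by ring]; exact h2)
      (by rw [show q - 1 - 2 = q - 3 by ring]; exact h4)

/-- levels `≥ -1`, adjacent forms -/
theorem fam (hop : StmtOP) (h : S.HH a b) (p q : ℤ) (hpq : q - 1 ≤ p) {α β : ℝ} (hα : 0 < α)
    (hβ : 0 < β) :
    OnePos (α • S.full p q + β • S.full (p - 1) (q - 1)) ∧
    ∀ u, (∀ z, (α • S.full p q + β • S.full (p - 1) (q - 1)) u z = 0) →
      (∀ z, S.full p q u z = 0) ∧ (∀ z, S.full (p - 1) (q - 1) u z = 0) := by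
  have hr := h.toRel
  have e4 : S.full (p - 1) (q - 1) (S.Y, 0) (S.Y, 0) = S.pr.H (p - 1) (q - 3) := by
    rw [fYY hr, show q - 1 - 2 = q - 3 by ring]
  refine hop.2.2.2.2 (V × ℝ) (S.full p q) (S.full (p - 1) (q - 1)) (S.X, 0) (S.Y, 0) α β
    (fsym hr _ _) (fsym hr _ _) (h.lev p q hpq) (h.lev _ _ (by omega)) (adj hr p q)
    ?_ ?_ ?_ ?_ ?_ ?_ ?_ hα hβ
  · rw [fXX hr]; exact H_nn h.reg (by omega)
  · rw [fXY hr]; exact H_nn h.reg (by omega)
  · rw [fYY hr]; exact H_nn h.reg (by omega)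
  · rw [e4]; exact H_nn h.reg (by omega)
  · rw [fXY hr, fYY hr, fXX hr, e4]; intro h1 _; exact ends h.reg hpq h1
  · rw [fXY hr, fYY hr, fXX hr]; intro h1 h2 h3; exact h.zer p q hpq h1 h2 h3
  · rw [fXY hr, fYY hr, fXX hr]; intro h1 h2 h3
    exact h.zer (p - 1) (q - 1) (by omega) h1 h2 h3

end ctx

section sh
variable {V : Type} [AddCommGroup V] [Module ℝ V] (S : Ctx V) (σ : ℤ) (ε : ℝ)

theorem sh_H (p q : ℤ) : (S.sh σ ε).pr.H p q = S.pr.H p q + ε * S.pr.H (p - σ) (q - σ) := by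
  unfold Ctx.pr Pr.H Ctx.sh
  simp only [LinearMap.add_apply, LinearMap.smul_apply, smul_eq_mul]
  ring

theorem sh_P (p : ℤ) : (S.sh σ ε).pr.P p = S.pr.P p + ε * S.pr.P (p - σ) := by
  unfold Ctx.pr Ctx.sh
  simp only [LinearMap.add_apply, LinearMap.smul_apply, smul_eq_mul]

theorem sh_Q (p : ℤ) : (S.sh σ ε).pr.Q p = S.pr.Q p + ε * S.pr.Q (p - σ) := by
  unfold Ctx.pr Ctx.sh
  simp only [LinearMap.add_apply, LinearMap.smul_apply, smul_eq_mul]

theorem sh_F (k : ℤ) : (S.sh σ ε).pr.F k = S.pr.F k + ε * S.pr.F (k - σ) := sh_H S σ ε k k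

theorem sh_D (p q : ℤ) : (S.sh σ ε).D p q = S.D p q + ε • S.D (p - σ) (q - σ) := rfl

theorem sh_g (p q : ℤ) : (S.sh σ ε).g p q = S.g p q + ε * S.g (p - σ) (q - σ) := by
  unfold Ctx.g
  by_cases h : q ≤ p
  · rw [if_pos h, if_pos h, if_pos (by omega), sh_H]
  · rw [if_neg h, if_neg h, if_neg (by omega)]; rfl

theorem sh_full (p q : ℤ) :
    (S.sh σ ε).full p q = S.full p q + ε • S.full (p - σ) (q - σ) := by
  apply LinearMap.ext; intro u
  apply LinearMap.ext; intro v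
  simp only [LinearMap.add_apply, LinearMap.smul_apply, smul_eq_mul, full_apply, sh_g]
  simp only [Ctx.sh, LinearMap.add_apply, LinearMap.smul_apply, smul_eq_mul]
  ring

theorem sh_rel (h : S.Rel) (hε : 0 < ε) : (S.sh σ ε).Rel where
  sym := by
    intro p q u v
    rw [sh_D]
    simp only [LinearMap.add_apply, LinearMap.smul_apply, smul_eq_mul]
    rw [h.sym p q u v, h.sym (p - σ) (q - σ) u v]
  DX := by
    intro p q v
    simp only [Ctx.sh, LinearMap.add_apply, LinearMap.smul_apply, smul_eq_mul, h.DX]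
    rw [show p + 1 - σ = p - σ + 1 by ring]; ring
  DY := by
    intro p q v
    simp only [Ctx.sh, LinearMap.add_apply, LinearMap.smul_apply, smul_eq_mul, h.DY]
    rw [show q - 1 - σ = q - σ - 1 by ring]; ring
  PX := by
    intro p
    simp only [Ctx.sh, LinearMap.add_apply, LinearMap.smul_apply, smul_eq_mul, h.PX]
    rw [show p + 1 - σ = p - σ + 1 by ring]
  QY := by
    intro q
    simp only [Ctx.sh, LinearMap.add_apply, LinearMap.smul_apply, smul_eq_mul, h.QY]
    rw [show q - 1 - σ = q - σ - 1 by ring]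
  Gnn := by
    intro q
    have h1 := h.Gnn q
    have h2 := h.Gnn (q - σ)
    show 0 ≤ S.G q + ε * S.G (q - σ)
    positivity
  Gh := by
    intro q
    have h1 := h.Gh q
    have h2 := h.Gh (q - σ)
    show (S.sh σ ε).pr.H (q - 1) q ≤ S.G q + ε * S.G (q - σ)
    rw [sh_H]
    unfold Pr.h at h1 h2
    rw [show q - 1 - σ = q - σ - 1 by ring]
    nlinarith [mul_le_mul_of_nonneg_left h2 hε.le]

variable {a b : ℤ}

theorem sh_reg (h : S.pr.Reg a b) (hσ : σ = 1 ∨ σ = -1) (hε : 0 < ε) :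
    (S.sh σ ε).pr.Reg (min a (a + σ)) (max b (b + σ)) where
  L0 := by
    intro k
    have h1 := h.L0 k
    have h2 := h.L0 (k - σ)
    have e : (S.sh σ ε).pr.L k = S.pr.L k + ε * S.pr.L (k - σ) := by
      unfold Pr.L
      rw [sh_P, sh_P, show k - 1 - σ = k - σ - 1 by ring]; ring
    rw [e]; positivity
  R0 := by
    intro k
    have h1 := h.R0 k
    have h2 := h.R0 (k - σ)
    have e : (S.sh σ ε).pr.R k = S.pr.R k + ε * S.pr.R (k - σ) := by
      unfold Pr.R
      rw [sh_Q, sh_Q, show k - 1 - σ = k - σ - 1 by ring]; ring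
    rw [e]; positivity
  lo := by
    intro k hk
    rw [sh_P, sh_Q, (h.lo k (by omega)).1, (h.lo k (by omega)).2, (h.lo (k - σ) (by omega)).1,
      (h.lo (k - σ) (by omega)).2]
    simp
  hi := by
    intro k hk
    rw [sh_P, sh_Q, sh_P, (h.hi k (by omega)).1, (h.hi k (by omega)).2,
      (h.hi (k - σ) (by omega)).1, (h.hi (k - σ) (by omega)).2,
      (h.hi (max b (b + σ)) (by omega)).1, (h.hi (max b (b + σ) - σ) (by omega)).1]
    simp
  ab := by
    have := h.ab
    omega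
  Fpos := by
    intro k h1 h2
    rw [sh_F]
    have h3 := F_nn h k
    have h4 := F_nn h (k - σ)
    have hab := h.ab
    by_cases h5 : a ≤ k ∧ k < b
    · have := h.Fpos k h5.1 h5.2
      positivity
    · have := h.Fpos (k - σ) (by omega) (by omega)
      positivity

end sh

/-- the two forms of a shifted context, level `-2` -/
theorem sh2 (hop : StmtOP) {V : Type} [AddCommGroup V] [Module ℝ V] (S : Ctx V) {a b σ : ℤ}
    {ε : ℝ} (h : S.HH a b) (hσ : σ = 1 ∨ σ = -1) (hε : 0 < ε) (q : ℤ) :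
    OnePos ((S.sh σ ε).D (q - 2) q) ∧
    ∀ u, (∀ z, (S.sh σ ε).D (q - 2) q u z = 0) →
      (∀ z, S.D (q - 2) q u z = 0) ∧ (∀ z, S.D (q - σ - 2) (q - σ) u z = 0) := by
  rcases hσ with rfl | rfl
  · have h1 := fam2 hop h q one_pos hε
    have e : (S.sh 1 ε).D (q - 2) q = (1 : ℝ) • S.D (q - 2) q + ε • S.D (q - 3) (q - 1) := by
      rw [sh_D, one_smul, show q - 2 - 1 = q - 3 by ring]
    rw [e, show q - 1 - 2 = q - 3 by ring]
    exact h1
  · have h1 := fam2 hop h (q + 1) hε one_pos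
    have e : (S.sh (-1) ε).D (q - 2) q =
        ε • S.D (q + 1 - 2) (q + 1) + (1 : ℝ) • S.D (q + 1 - 3) (q + 1 - 1) := by
      rw [sh_D, one_smul, add_comm, show q - 2 - -1 = q + 1 - 2 by ring,
        show q - -1 = q + 1 by ring, show q + 1 - 3 = q - 2 by ring,
        show q + 1 - 1 = q by ring]
    rw [e]
    refine ⟨h1.1, fun u hu => ?_⟩
    have h2 := h1.2 u hu
    rw [show q + 1 - 3 = q - 2 by ring, show q + 1 - 1 = q by ring] at h2
    rw [show q - -1 - 2 = q + 1 - 2 by ring, show q - -1 = q + 1 by ring]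
    exact ⟨h2.2, h2.1⟩

/-- the two forms of a shifted context, levels `≥ -1` -/
theorem shf (hop : StmtOP) {V : Type} [AddCommGroup V] [Module ℝ V] (S : Ctx V) {a b σ : ℤ}
    {ε : ℝ} (h : S.HH a b) (hσ : σ = 1 ∨ σ = -1) (hε : 0 < ε) (p q : ℤ) (hpq : q - 1 ≤ p) :
    OnePos ((S.sh σ ε).full p q) ∧
    ∀ u, (∀ z, (S.sh σ ε).full p q u z = 0) →
      (∀ z, S.full p q u z = 0) ∧ (∀ z, S.full (p - σ) (q - σ) u z = 0) := by
  rcases hσ with rfl | rfl
  · have h1 := fam hop h p q hpq one_pos hε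
    rw [one_smul] at h1
    rw [sh_full]
    exact h1
  · have h1 := fam hop h (p + 1) (q + 1) (by omega) hε one_pos
    have e : (S.sh (-1) ε).full p q =
        ε • S.full (p + 1) (q + 1) + (1 : ℝ) • S.full (p + 1 - 1) (q + 1 - 1) := by
      rw [sh_full, one_smul, add_comm, show p - -1 = p + 1 by ring,
        show q - -1 = q + 1 by ring, show p + 1 - 1 = p by ring,
        show q + 1 - 1 = q by ring]
    rw [e]
    refine ⟨h1.1, fun u hu => ?_⟩
    have h2 := h1.2 u hu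
    rw [show p + 1 - 1 = p by ring, show q + 1 - 1 = q by ring] at h2
    rw [show p - -1 = p + 1 by ring, show q - -1 = q + 1 by ring]
    exact ⟨h2.2, h2.1⟩

/-- PACKET STEP -/
theorem step (hop : StmtOP) : StmtSTEP := by
  intro V _ _ S a b σ ε h hσ hε
  refine { sh_rel S σ ε h.toRel hε with
    reg := sh_reg S σ ε h.reg hσ hε
    lev2 := fun q => (sh2 hop S h hσ hε q).1
    lev := fun p q hpq => (shf hop S h hσ hε p q hpq).1
    zer2 := ?_
    zer := ?_ }
  · intro q h1 h2 h3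
    rw [sh_F] at h1 h2 h3
    have a1 := F_nn h.reg q
    have a2 := F_nn h.reg (q - σ)
    have a3 := F_nn h.reg (q - 1)
    have a4 := F_nn h.reg (q - 1 - σ)
    have a5 := F_nn h.reg (q - 2)
    have a6 := F_nn h.reg (q - 2 - σ)
    have c1 : S.pr.F q = 0 ∧ S.pr.F (q - σ) = 0 := by
      constructor
      · nlinarith [mul_nonneg hε.le a2]
      · have : ε * S.pr.F (q - σ) = 0 := by nlinarith [mul_nonneg hε.le a2]
        rcases mul_eq_zero.mp this with h0 | h0
        · exact absurd h0 hε.ne'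
        · exact h0
    have c2 : S.pr.F (q - 1) = 0 ∧ S.pr.F (q - 1 - σ) = 0 := by
      constructor
      · nlinarith [mul_nonneg hε.le a4]
      · have : ε * S.pr.F (q - 1 - σ) = 0 := by nlinarith [mul_nonneg hε.le a4]
        rcases mul_eq_zero.mp this with h0 | h0
        · exact absurd h0 hε.ne'
        · exact h0
    have c3 : S.pr.F (q - 2) = 0 ∧ S.pr.F (q - 2 - σ) = 0 := by
      constructor
      · nlinarith [mul_nonneg hε.le a6]
      · have : ε * S.pr.F (q - 2 - σ) = 0 := by nlinarith [mul_nonneg hε.le a6]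
        rcases mul_eq_zero.mp this with h0 | h0
        · exact absurd h0 hε.ne'
        · exact h0
    rw [sh_D, h.zer2 q c1.1 c2.1 c3.1, show q - 2 - σ = q - σ - 2 by ring,
      h.zer2 (q - σ) c1.2 (by rw [show q - σ - 1 = q - 1 - σ by ring]; exact c2.2)
        (by rw [show q - σ - 2 = q - 2 - σ by ring]; exact c3.2)]
    simp
  · intro p q hpq h1 h2 h3
    rw [sh_H] at h1 h2 h3
    have a1 := H_nn h.reg (show q ≤ p + 2 by omega)
    have a2 := H_nn h.reg (show q - σ ≤ p + 2 - σ by omega)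
    have a3 := H_nn h.reg (show q - 1 ≤ p + 1 by omega)
    have a4 := H_nn h.reg (show q - 1 - σ ≤ p + 1 - σ by omega)
    have a5 := H_nn h.reg (show q - 2 ≤ p by omega)
    have a6 := H_nn h.reg (show q - 2 - σ ≤ p - σ by omega)
    have c1 : S.pr.H (p + 2) q = 0 ∧ S.pr.H (p + 2 - σ) (q - σ) = 0 := by
      constructor
      · nlinarith [mul_nonneg hε.le a2]
      · have : ε * S.pr.H (p + 2 - σ) (q - σ) = 0 := by nlinarith [mul_nonneg hε.le a2]
        rcases mul_eq_zero.mp this with h0 | h0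
        · exact absurd h0 hε.ne'
        · exact h0
    have c2 : S.pr.H (p + 1) (q - 1) = 0 ∧ S.pr.H (p + 1 - σ) (q - 1 - σ) = 0 := by
      constructor
      · nlinarith [mul_nonneg hε.le a4]
      · have : ε * S.pr.H (p + 1 - σ) (q - 1 - σ) = 0 := by nlinarith [mul_nonneg hε.le a4]
        rcases mul_eq_zero.mp this with h0 | h0
        · exact absurd h0 hε.ne'
        · exact h0
    have c3 : S.pr.H p (q - 2) = 0 ∧ S.pr.H (p - σ) (q - 2 - σ) = 0 := by
      constructor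
      · nlinarith [mul_nonneg hε.le a6]
      · have : ε * S.pr.H (p - σ) (q - 2 - σ) = 0 := by nlinarith [mul_nonneg hε.le a6]
        rcases mul_eq_zero.mp this with h0 | h0
        · exact absurd h0 hε.ne'
        · exact h0
    rw [sh_full, h.zer p q hpq c1.1 c2.1 c3.1,
      h.zer (p - σ) (q - σ) (by omega)
        (by rw [show p - σ + 2 = p + 2 - σ by ring]; exact c1.2)
        (by rw [show p - σ + 1 = p + 1 - σ by ring, show q - σ - 1 = q - 1 - σ by ring]
            exact c2.2)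
        (by rw [show q - σ - 2 = q - 2 - σ by ring]; exact c3.2)]
    simp

/-- PACKET STEP, radicals -/
theorem rad (hop : StmtOP) : StmtRAD := by
  intro V _ _ S a b σ ε h hσ hε
  exact ⟨fun q u hu => (sh2 hop S h hσ hε q).2 u hu,
    fun p q u hpq hu => (shf hop S h hσ hε p q hpq).2 u hu⟩

end Pool.Agent.Helper97.LZ
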